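import Pool.Agent.N869.GK.Stm

/-!
# GK/CLSG (project GK, subtask 4913): Mertens' theorem for the primes with label zero

The label of a prime `p` (not dividing `M`) is zero iff the quadratic characters modulo `4`, `8` and
the odd prime divisors of `M` are one at `p`. These characters define a surjective homomorphism from
`(ZMod M)ˣ` to a group of exponent two with `2 ^ (n + 1)` elements, `n` the number of the prime
divisors of `M`.
-/

set_option autoImplicit false
set_option linter.unusedVariables false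

open scoped Classical

namespace Pool.Agent.N42.GK

open Finset
open Pool.Agent.Y703.CQ (nr)
open Pool.Agent.N973.ND (uu)
open Pool.Agent.N856.JL (S_MEQ)
open Pool.Agent.N869.GK

/-- the index set of the characters -/
abbrev Ix (M : ℕ) : Type := Fin 2 ⊕ {l : ℕ // l ∈ M.primeFactors.erase 2}

theorem card_Ix {M : ℕ} (h0 : 0 < M) (h8 : 8 ∣ M) :
    Fintype.card (Ix M) = M.primeFactors.card + 1 := by
  have h2 : 2 ∈ M.primeFactors :=
    Nat.mem_primeFactors.2 ⟨Nat.prime_two, (by norm_num : 2 ∣ 8).trans h8, h0.ne'⟩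
  rw [Fintype.card_sum, Fintype.card_fin, Fintype.card_coe, card_erase_of_mem h2]
  have := card_pos.2 ⟨2, h2⟩
  omega

/-- the characters modulo 4, 8 and the odd primes `l` -/
noncomputable def ch {M : ℕ} (h8 : 8 ∣ M) : Ix M → ((ZMod M)ˣ →* ℤˣ)
  | .inl 0 => ZMod.χ₄.toUnitHom.comp (ZMod.unitsMap ((by norm_num : 4 ∣ 8).trans h8))
  | .inl 1 => ZMod.χ₈.toUnitHom.comp (ZMod.unitsMap h8)
  | .inr l =>
    have : Fact l.1.Prime := ⟨Nat.prime_of_mem_primeFactors (mem_of_mem_erase l.2)⟩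
    (quadraticChar (ZMod l.1)).toUnitHom.comp
      (ZMod.unitsMap (Nat.dvd_of_mem_primeFactors (mem_of_mem_erase l.2)))

theorem ch_zero {M : ℕ} (h8 : 8 ∣ M) (k : ℕ) (hk : k.Coprime M) :
    ((ch h8 (.inl 0) (ZMod.unitOfCoprime k hk) : ℤˣ) : ℤ) = ZMod.χ₄ (k : ZMod 4) := by
  show ((ZMod.χ₄.toUnitHom (ZMod.unitsMap _ (ZMod.unitOfCoprime k hk)) : ℤˣ) : ℤ) = _
  rw [MulChar.coe_toUnitHom]
  congr 1
  simp [ZMod.unitsMap_def]

theorem ch_one {M : ℕ} (h8 : 8 ∣ M) (k : ℕ) (hk : k.Coprime M) :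
    ((ch h8 (.inl 1) (ZMod.unitOfCoprime k hk) : ℤˣ) : ℤ) = ZMod.χ₈ (k : ZMod 8) := by
  show ((ZMod.χ₈.toUnitHom (ZMod.unitsMap _ (ZMod.unitOfCoprime k hk)) : ℤˣ) : ℤ) = _
  rw [MulChar.coe_toUnitHom]
  congr 1
  simp [ZMod.unitsMap_def]

theorem ch_inr {M : ℕ} (h8 : 8 ∣ M) (l : {l : ℕ // l ∈ M.primeFactors.erase 2})
    [Fact l.1.Prime] (k : ℕ) (hk : k.Coprime M) :
    ((ch h8 (.inr l) (ZMod.unitOfCoprime k hk) : ℤˣ) : ℤ) =
      quadraticChar (ZMod l.1) (k : ZMod l.1) := by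
  show (((quadraticChar (ZMod l.1)).toUnitHom
    (ZMod.unitsMap _ (ZMod.unitOfCoprime k hk)) : ℤˣ) : ℤ) = _
  rw [MulChar.coe_toUnitHom]
  congr 1
  simp [ZMod.unitsMap_def]

/-- all the characters -/
noncomputable def F {M : ℕ} (h8 : 8 ∣ M) : (ZMod M)ˣ →* (Ix M → ℤˣ) := MonoidHom.pi (ch h8)

theorem F_apply {M : ℕ} (h8 : 8 ∣ M) (u : (ZMod M)ˣ) (i : Ix M) : F h8 u i = ch h8 i u := rfl

theorem ex8 (a b : ℤˣ) : ∃ r : ℕ, r % 2 = 1 ∧ ZMod.χ₄ (r : ZMod 4) = (a : ℤ) ∧
    ZMod.χ₈ (r : ZMod 8) = (b : ℤ) := by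
  rcases Int.units_eq_one_or a with ha | ha <;> rcases Int.units_eq_one_or b with hb | hb <;>
    subst ha <;> subst hb
  · exact ⟨1, by decide, by decide, by decide⟩
  · exact ⟨5, by decide, by decide, by decide⟩
  · exact ⟨7, by decide, by decide, by decide⟩
  · exact ⟨3, by decide, by decide, by decide⟩

theorem exl (l : ℕ) [Fact l.Prime] (hl : l ≠ 2) (a : ℤˣ) : ∃ r : ℕ, (r : ZMod l) ≠ 0 ∧
    quadraticChar (ZMod l) (r : ZMod l) = (a : ℤ) := by
  rcases Int.units_eq_one_or a with ha | ha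
  · subst ha
    exact ⟨1, by simp, by simp⟩
  · subst ha
    obtain ⟨g, hg⟩ := FiniteField.exists_nonsquare (F := ZMod l)
      (by rw [ZMod.ringChar_zmod_n]; exact hl)
    refine ⟨g.val, ?_, ?_⟩
    · rw [ZMod.natCast_zmod_val]
      rintro rfl
      exact hg (IsSquare.zero)
    · rw [ZMod.natCast_zmod_val]
      simpa using quadraticChar_neg_one_iff_not_isSquare.2 hg

theorem F_surj {M : ℕ} (h0 : 0 < M) (h8 : 8 ∣ M) : Function.Surjective (F h8) := by
  intro ε
  obtain ⟨r8, hr8, ha, hb⟩ := ex8 (ε (.inl 0)) (ε (.inl 1))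
  have hex : ∀ l : {l : ℕ // l ∈ M.primeFactors.erase 2}, ∃ r : ℕ, (r : ZMod l.1) ≠ 0 ∧
      ∀ _ : Fact l.1.Prime, quadraticChar (ZMod l.1) (r : ZMod l.1) = (ε (.inr l) : ℤ) := by
    intro l
    have hf : Fact l.1.Prime := ⟨Nat.prime_of_mem_primeFactors (mem_of_mem_erase l.2)⟩
    obtain ⟨r, hr, hr'⟩ := exl l.1 (ne_of_mem_erase l.2) (ε (.inr l))
    exact ⟨r, hr, fun _ => hr'⟩
  choose rl hrl hrl' using hex
  let s : ℕ → ℕ := fun l => if l = 2 then 8 else l
  let a : ℕ → ℕ := fun l => if h : l ∈ M.primeFactors.erase 2 then rl ⟨l, h⟩ else r8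
  have hs : ∀ i ∈ M.primeFactors, s i ≠ 0 := by
    intro i hi
    simp only [s]
    split_ifs with h
    · norm_num
    · exact (Nat.prime_of_mem_primeFactors hi).ne_zero
  have pp : Set.Pairwise (M.primeFactors : Set ℕ) (Function.onFun Nat.Coprime s) := by
    intro i hi j hj hij
    have hi' := Nat.prime_of_mem_primeFactors (by exact_mod_cast hi)
    have hj' := Nat.prime_of_mem_primeFactors (by exact_mod_cast hj)
    have h1 : Nat.Coprime i j := (Nat.coprime_primes hi' hj').2 hij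
    show Nat.Coprime (s i) (s j)
    simp only [s]
    split_ifs with h h' h'
    · omega
    · subst h
      exact (Nat.Coprime.pow_left 3 h1 : Nat.Coprime (2 ^ 3) j)
    · subst h'
      exact (Nat.Coprime.pow_right 3 h1 : Nat.Coprime i (2 ^ 3))
    · exact h1
  obtain ⟨k, hk⟩ := Nat.chineseRemainderOfFinset a s M.primeFactors hs pp
  have h2m : 2 ∈ M.primeFactors :=
    Nat.mem_primeFactors.2 ⟨Nat.prime_two, (by norm_num : 2 ∣ 8).trans h8, h0.ne'⟩
  have hk8 : k ≡ r8 [MOD 8] := by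
    have := hk 2 h2m
    simpa [s, a] using this
  have hkl : ∀ l : {l : ℕ // l ∈ M.primeFactors.erase 2}, k ≡ rl l [MOD l.1] := by
    intro l
    have h1 := hk l.1 (mem_of_mem_erase l.2)
    have h2 : s l.1 = l.1 := by simp only [s]; rw [if_neg (ne_of_mem_erase l.2)]
    have h3 : a l.1 = rl l := by simp only [a]; rw [dif_pos l.2]
    rw [h2, h3] at h1
    exact h1
  have hcop : k.Coprime M := by
    apply Nat.Coprime.symm
    rw [Nat.coprime_iff_gcd_eq_one]
    by_contra hne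
    obtain ⟨q, hq, hqd⟩ := Nat.exists_prime_and_dvd hne
    have hqM : q ∣ M := hqd.trans (Nat.gcd_dvd_left M k)
    have hqk : q ∣ k := hqd.trans (Nat.gcd_dvd_right M k)
    have hqm : q ∈ M.primeFactors := Nat.mem_primeFactors.2 ⟨hq, hqM, h0.ne'⟩
    by_cases h2 : q = 2
    · subst h2
      have : k % 8 = r8 % 8 := hk8
      omega
    · have hmem : q ∈ M.primeFactors.erase 2 := mem_erase.2 ⟨h2, hqm⟩
      have h3 := hkl ⟨q, hmem⟩
      apply hrl ⟨q, hmem⟩
      have h4 : ((rl ⟨q, hmem⟩ : ℕ) : ZMod q) = (k : ZMod q) :=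
        ((ZMod.natCast_eq_natCast_iff _ _ _).2 h3).symm
      rw [h4]
      exact (ZMod.natCast_eq_zero_iff k q).2 hqk
  refine ⟨ZMod.unitOfCoprime k hcop, ?_⟩
  funext i
  rw [F_apply]
  apply Units.ext
  rcases i with i | l
  · fin_cases i
    · show ((ch h8 (.inl 0) (ZMod.unitOfCoprime k hcop) : ℤˣ) : ℤ) = ((ε (.inl 0) : ℤˣ) : ℤ)
      rw [ch_zero, ← ha]
      congr 1
      exact (ZMod.natCast_eq_natCast_iff _ _ _).2 (hk8.of_dvd (by norm_num))
    · show ((ch h8 (.inl 1) (ZMod.unitOfCoprime k hcop) : ℤˣ) : ℤ) = ((ε (.inl 1) : ℤˣ) : ℤ)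
      rw [ch_one, ← hb]
      congr 1
      exact (ZMod.natCast_eq_natCast_iff _ _ _).2 hk8
  · have hf : Fact l.1.Prime := ⟨Nat.prime_of_mem_primeFactors (mem_of_mem_erase l.2)⟩
    rw [ch_inr, ← hrl' l hf]
    congr 1
    exact (ZMod.natCast_eq_natCast_iff _ _ _).2 (hkl l)

theorem card_ker {M : ℕ} (h0 : 0 < M) (h8 : 8 ∣ M) :
    Nat.card (F h8).ker * 2 ^ (M.primeFactors.card + 1) = M.totient := by
  have hM : NeZero M := ⟨h0.ne'⟩
  have h1 := Subgroup.card_mul_index (F h8).ker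
  rw [Subgroup.index_ker, MonoidHom.range_eq_top.2 (F_surj h0 h8)] at h1
  rw [Nat.card_congr Subgroup.topEquiv.toEquiv] at h1
  have h2 : Nat.card (Ix M → ℤˣ) = 2 ^ (M.primeFactors.card + 1) := by
    rw [Nat.card_fun, Nat.card_eq_fintype_card, Nat.card_eq_fintype_card, card_Ix h0 h8]
    rfl
  rw [h2, Nat.card_eq_fintype_card (α := (ZMod M)ˣ), ZMod.card_units_eq_totient] at h1
  exact h1

/-- the primes with label zero -/
theorem lab_iff {r M : ℕ} {lb : ℕ → Gr r} (hL : LabZ M lb) (p : ℕ) (hp : p.Prime)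
    (hpM : ¬ p ∣ M) (hc : p.Coprime M) :
    lb p = 0 ↔ F hL.eight (ZMod.unitOfCoprime p hc) = 1 := by
  have hpf : Fact p.Prime := ⟨hp⟩
  have hp2 : p ≠ 2 := by
    rintro rfl
    exact hpM ((by norm_num : 2 ∣ 8).trans hL.eight)
  have hodd : p % 2 = 1 := hp.eq_two_or_odd.resolve_left hp2
  have h2m : 2 ∈ M.primeFactors :=
    Nat.mem_primeFactors.2 ⟨Nat.prime_two, (by norm_num : 2 ∣ 8).trans hL.eight, hL.pos.ne'⟩
  rw [hL.zero p hp hpM, funext_iff]
  have hF : ∀ i, F hL.eight (ZMod.unitOfCoprime p hc) i = (1 : Ix M → ℤˣ) i ↔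
      ((ch hL.eight i (ZMod.unitOfCoprime p hc) : ℤˣ) : ℤ) = 1 := by
    intro i
    rw [F_apply, Pi.one_apply, ← Units.val_eq_one]
  have h4 : uu p = 0 ↔ p % 4 = 1 := by
    unfold uu
    split_ifs with h
    · constructor
      · intro h'; exact absurd h' (by decide)
      · intro h'; omega
    · constructor
      · intro _; omega
      · intro _; rfl
  have hχ4 : ZMod.χ₄ (p : ZMod 4) = 1 ↔ p % 4 = 1 := by
    rcases (by omega : p % 4 = 1 ∨ p % 4 = 3) with h | h
    · simp [ZMod.χ₄_nat_one_mod_four h, h]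
    · rw [ZMod.χ₄_nat_three_mod_four h, h]
      decide
  have hnr : ∀ l, nr p l = 0 ↔ IsSquare (l : ZMod p) := by
    intro l
    unfold nr
    split_ifs with h
    · exact ⟨fun _ => h, fun _ => rfl⟩
    · exact ⟨fun h' => absurd h' (by decide), fun h' => absurd h' h⟩
  have hχ8 : ZMod.χ₈ (p : ZMod 8) = 1 ↔ IsSquare ((2 : ℕ) : ZMod p) := by
    have h1 := ZMod.exists_sq_eq_two_iff (p := p) hp2
    have h2 : (p : ZMod 8) = ((p % 8 : ℕ) : ZMod 8) := (ZMod.natCast_mod p 8).symm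
    rw [Nat.cast_ofNat, h1, h2]
    rcases (by omega : p % 8 = 1 ∨ p % 8 = 3 ∨ p % 8 = 5 ∨ p % 8 = 7) with h | h | h | h <;>
      rw [h] <;> decide
  have hχl : ∀ l : {l : ℕ // l ∈ M.primeFactors.erase 2}, ∀ _ : Fact l.1.Prime, p % 4 = 1 →
      (quadraticChar (ZMod l.1) (p : ZMod l.1) = 1 ↔ IsSquare (l.1 : ZMod p)) := by
    intro l hl h41
    have hne : (p : ZMod l.1) ≠ 0 := by
      intro h
      rw [ZMod.natCast_eq_zero_iff] at h
      rw [Nat.prime_dvd_prime_iff_eq hl.out hp] at h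
      exact hpM (h ▸ Nat.dvd_of_mem_primeFactors (mem_of_mem_erase l.2))
    rw [quadraticChar_one_iff_isSquare hne,
      ZMod.exists_sq_eq_prime_iff_of_mod_four_eq_one h41 (ne_of_mem_erase l.2)]
  constructor
  · rintro ⟨h1, h2⟩ i
    rw [hF]
    rcases i with i | l
    · fin_cases i
      · show ((ch hL.eight (.inl 0) (ZMod.unitOfCoprime p hc) : ℤˣ) : ℤ) = 1
        rw [ch_zero, hχ4, ← h4, h1]
      · show ((ch hL.eight (.inl 1) (ZMod.unitOfCoprime p hc) : ℤˣ) : ℤ) = 1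
        rw [ch_one, hχ8, ← hnr]
        exact h2 2 h2m
    · have hf : Fact l.1.Prime := ⟨Nat.prime_of_mem_primeFactors (mem_of_mem_erase l.2)⟩
      rw [ch_inr, hχl l hf (h4.1 h1), ← hnr]
      exact h2 l.1 (mem_of_mem_erase l.2)
  · intro h
    have h41 : p % 4 = 1 := by
      rw [← hχ4, ← ch_zero hL.eight p hc]
      exact (hF (.inl 0)).1 (h _)
    refine ⟨h4.2 h41, fun l hl => ?_⟩
    rw [hnr]
    by_cases hl2 : l = 2
    · subst hl2
      rw [← hχ8, ← ch_one hL.eight p hc]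
      exact (hF (.inl 1)).1 (h _)
    · have hmem : l ∈ M.primeFactors.erase 2 := mem_erase.2 ⟨hl2, hl⟩
      have hf : Fact l.Prime := ⟨Nat.prime_of_mem_primeFactors hl⟩
      rw [← hχl ⟨l, hmem⟩ hf h41]
      have h3 := (hF (.inr ⟨l, hmem⟩)).1 (h _)
      have hf' : Fact (⟨l, hmem⟩ : {l : ℕ // l ∈ M.primeFactors.erase 2}).1.Prime := hf
      rw [← ch_inr hL.eight ⟨l, hmem⟩ p hc]
      exact h3

theorem t_CLSG : S_CLSG := by
  intro hM r M lb hL
  have h0 := hL.pos
  have h8 := hL.eight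
  have hNZ : NeZero M := ⟨h0.ne'⟩
  have hcop : ∀ u : (ZMod M)ˣ, ((u : ZMod M).val).Coprime M := fun u => ZMod.val_coe_unit_coprime u
  choose C hC using fun u : (ZMod M)ˣ => hM M ((u : ZMod M).val) h0 (hcop u)
  let K : Finset (ZMod M)ˣ := univ.filter fun u => F h8 u = 1
  have hK : (K.card : ℝ) * (1 / (M.totient : ℝ)) = 1 / 2 ^ (M.primeFactors.card + 1) := by
    have h1 := card_ker h0 h8
    have h2 : Nat.card (F h8).ker = K.card := by
      rw [Nat.card_eq_fintype_card, Fintype.card_subtype]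
      congr 1
      ext u
      simp [K, MonoidHom.mem_ker]
    rw [h2] at h1
    have h3 : (K.card : ℝ) * 2 ^ (M.primeFactors.card + 1) = M.totient := by exact_mod_cast h1
    have h4 : (0 : ℝ) < M.totient := by exact_mod_cast Nat.totient_pos.2 h0
    rw [mul_one_div, ← h3]
    have h5 : (K.card : ℝ) ≠ 0 := by
      intro h
      rw [h, zero_mul] at h3
      linarith
    field_simp
  refine ⟨∑ u ∈ K, C u, fun y hy => ?_⟩
  have key : ∑ p ∈ (range (y + 1)).filter (fun p => p.Prime ∧ ¬ p ∣ M ∧ lb p = 0), (1 : ℝ) / p =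
      ∑ u ∈ K, ∑ p ∈ (range (y + 1)).filter (fun p => p.Prime ∧ p % M = (u : ZMod M).val % M),
        (1 : ℝ) / p := by
    rw [sum_filter]
    simp_rw [sum_filter]
    rw [sum_comm]
    refine sum_congr rfl fun p _ => ?_
    by_cases hp : p.Prime
    swap
    · simp [hp]
    by_cases hpM : p ∣ M
    · rw [if_neg (by tauto)]
      symm
      apply sum_eq_zero
      intro u _
      rw [if_neg]
      rintro ⟨-, h⟩
      have h1 : Nat.gcd p M = Nat.gcd ((u : ZMod M).val) M :=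
        Nat.ModEq.gcd_eq (show p ≡ (u : ZMod M).val [MOD M] from h)
      rw [hcop u] at h1
      exact (Nat.Prime.coprime_iff_not_dvd hp).1 h1 hpM
    · have hc : p.Coprime M := (Nat.Prime.coprime_iff_not_dvd hp).2 hpM
      have h1 : ∀ u : (ZMod M)ˣ, (p.Prime ∧ p % M = (u : ZMod M).val % M) ↔
          u = ZMod.unitOfCoprime p hc := by
        intro u
        constructor
        · rintro ⟨-, h⟩
          apply Units.ext
          rw [ZMod.coe_unitOfCoprime]
          have h2 := (ZMod.natCast_eq_natCast_iff p ((u : ZMod M).val) M).2 h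
          rw [ZMod.natCast_zmod_val] at h2
          exact h2.symm
        · rintro rfl
          refine ⟨hp, ?_⟩
          rw [ZMod.coe_unitOfCoprime, ZMod.val_natCast, Nat.mod_mod]
      simp_rw [h1]
      rw [sum_ite_eq' K (ZMod.unitOfCoprime p hc)]
      simp only [K, mem_filter, mem_univ, true_and, hp, hpM, not_false_eq_true, lab_iff hL p hp hpM hc]
  rw [key]
  have h1 : ∑ u ∈ K, ∑ p ∈ (range (y + 1)).filter
        (fun p => p.Prime ∧ p % M = (u : ZMod M).val % M), (1 : ℝ) / p -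
      1 / 2 ^ (M.primeFactors.card + 1) * Real.log (Real.log y) =
      ∑ u ∈ K, (∑ p ∈ (range (y + 1)).filter
        (fun p => p.Prime ∧ p % M = (u : ZMod M).val % M), (1 : ℝ) / p -
        1 / (M.totient : ℝ) * Real.log (Real.log y)) := by
    rw [sum_sub_distrib, sum_const, nsmul_eq_mul, ← hK]
    ring
  rw [h1]
  exact (abs_sum_le_sum_abs _ _).trans (sum_le_sum fun u _ => hC u y hy)

end Pool.Agent.N42.GK
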