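import Pool.Agent.N869.GK.StmM
import Pool.Agent.N314.GK.PAIR

/-!
# GK/M-GENM: the local matrices generate the product of the matrix algebras (helper42)
-/

set_option autoImplicit false
set_option linter.unusedVariables false

open scoped Classical

namespace Pool.Agent.N42.GK.M

open Finset
open Pool.Agent.N869.GK.M
open Pool.Agent.N869.GK (Par Ok Gr dot)

/-- matrices over the field with two elements -/
abbrev M2 : Type := Matrix (Fin 2) (Fin 2) (ZMod 2)

theorem z2 (a : ZMod 2) : a = 0 ∨ a = 1 := by revert a; decide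

/-- the algebra of matrices is simple -/
theorem one_of_ne {N : Set M2} (hadd : ∀ x ∈ N, ∀ y ∈ N, x + y ∈ N)
    (hmul : ∀ a b : M2, ∀ x ∈ N, a * x * b ∈ N) {X : M2} (hX : X ∈ N) (h : X ≠ 0) :
    (1 : M2) ∈ N := by
  obtain ⟨i, j, hij⟩ : ∃ i j, X i j ≠ 0 := by
    by_contra hcon
    push Not at hcon
    exact h (Matrix.ext hcon)
  have hij1 : X i j = 1 := (z2 _).resolve_left hij
  have e : Matrix.single 0 i 1 * X * Matrix.single j 0 1 +
      Matrix.single 1 i 1 * X * Matrix.single j 1 1 = (1 : M2) := by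
    ext a b
    fin_cases a <;> fin_cases b <;>
      simp [Matrix.mul_apply, Matrix.single_apply, hij1, Fin.sum_univ_two]
  rw [← e]
  exact hadd _ (hmul _ _ _ hX) _ (hmul _ _ _ hX)

/-- all endomorphisms of the ring of matrices are inner -/
theorem inner (φ : M2 → M2) (h1 : φ 1 = 1) (hadd : ∀ x y, φ (x + y) = φ x + φ y)
    (hmul : ∀ x y, φ (x * y) = φ x * φ y) : ∃ P : M2, IsUnit P ∧ ∀ X, φ X * P = P * X := by
  have h0 : φ 0 = 0 := by
    have h := hadd 0 0
    rw [add_zero] at h
    exact left_eq_add.1 h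
  obtain ⟨F, hF⟩ : ∃ F : Fin 2 → Fin 2 → M2, F = fun i j => φ (Matrix.single i j 1) := ⟨_, rfl⟩
  have hFs : ∀ i j k, F i j * F j k = F i k := by
    intro i j k
    rw [hF]
    show φ _ * φ _ = φ _
    rw [← hmul, Matrix.single_mul_single_same, mul_one]
  have hFn : ∀ i j j' k, j ≠ j' → F i j * F j' k = 0 := by
    intro i j j' k hj
    rw [hF]
    show φ _ * φ _ = _
    rw [← hmul, Matrix.single_mul_single_of_ne _ _ _ _ hj, h0]
  have hone : F 0 0 + F 1 1 = 1 := by
    rw [hF]
    show φ _ + φ _ = _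
    rw [← hadd, ← h1]
    congr 1
    ext a b
    fin_cases a <;> fin_cases b <;> simp [Matrix.single_apply]
  have hF0 : F 0 0 ≠ 0 := by
    intro h
    have h2 : F 1 1 = 0 := by
      rw [← hFs 1 0 1, ← hFs 1 0 0, h, mul_zero, zero_mul]
    rw [h, h2, add_zero] at hone
    exact zero_ne_one hone
  obtain ⟨i0, j0, hij⟩ : ∃ i j, F 0 0 i j ≠ 0 := by
    by_contra hcon
    push Not at hcon
    exact hF0 (Matrix.ext hcon)
  obtain ⟨e, he⟩ : ∃ e : Fin 2 → ZMod 2, e = Pi.single j0 1 := ⟨_, rfl⟩
  have hv : (F 0 0).mulVec e ≠ 0 := by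
    intro h
    apply hij
    have h2 := congrFun h i0
    rw [he, Matrix.mulVec_single_one] at h2
    exact h2
  obtain ⟨P, hP⟩ : ∃ P : M2, P = Matrix.of fun a b => (F b 0).mulVec e a := ⟨_, rfl⟩
  have hPc : ∀ b, P.mulVec (Pi.single b 1) = (F b 0).mulVec e := by
    intro b
    rw [Matrix.mulVec_single_one, hP]
    rfl
  have hext : ∀ A B : M2, (∀ b, A.mulVec (Pi.single b 1) = B.mulVec (Pi.single b 1)) → A = B := by
    intro A B h
    ext a b
    have h2 := congrFun (h b) a
    rw [Matrix.mulVec_single_one, Matrix.mulVec_single_one] at h2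
    exact h2
  have hsv : ∀ i j b : Fin 2, (Matrix.single i j (1 : ZMod 2)).mulVec (Pi.single b 1) =
      if j = b then Pi.single i 1 else 0 := by
    intro i j b
    funext a
    rw [Matrix.mulVec_single_one]
    fin_cases i <;> fin_cases j <;> fin_cases b <;> fin_cases a <;> decide
  have hFP : ∀ i j, F i j * P = P * Matrix.single i j 1 := by
    intro i j
    apply hext
    intro b
    rw [← Matrix.mulVec_mulVec, ← Matrix.mulVec_mulVec, hPc, Matrix.mulVec_mulVec, hsv]
    split_ifs with h
    · rw [← h, hFs, hPc]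
    · rw [hFn _ _ _ _ h, Matrix.zero_mulVec, Matrix.mulVec_zero]
  refine ⟨P, ?_, ?_⟩
  · rw [← Matrix.mulVec_injective_iff_isUnit]
    have hk : ∀ u : Fin 2 → ZMod 2, P.mulVec u = 0 → u = 0 := by
      intro u hu
      funext j
      rcases z2 (u j) with h | h
      · exact h
      exfalso
      apply hv
      have e1 : (Matrix.single (0 : Fin 2) j (1 : ZMod 2)).mulVec u =
          (Pi.single 0 1 : Fin 2 → ZMod 2) := by
        funext a
        fin_cases a
        · simp only [Matrix.mulVec, dotProduct, Matrix.single_apply]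
          rw [Finset.sum_eq_single j]
          · simp [h]
          · intro b _ hb
            rw [if_neg fun h' => hb h'.2.symm, zero_mul]
          · intro h'
            exact absurd (mem_univ _) h'
        · simp [Matrix.mulVec, dotProduct, Matrix.single_apply]
      rw [← hPc 0, ← e1, Matrix.mulVec_mulVec, ← hFP, ← Matrix.mulVec_mulVec, hu,
        Matrix.mulVec_zero]
    intro u v huv
    have h3 := hk (u - v) (by rw [Matrix.mulVec_sub]; exact sub_eq_zero.2 huv)
    exact sub_eq_zero.1 h3
  · intro X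
    have hadd' : ∀ A B : M2, φ A * P = P * A → φ B * P = P * B →
        φ (A + B) * P = P * (A + B) := by
      intro A B hA hB
      rw [hadd, add_mul, mul_add, hA, hB]
    have hs : ∀ i j c, φ (Matrix.single i j c) * P = P * Matrix.single i j c := by
      intro i j c
      rcases z2 c with h | h
      · rw [h, Matrix.single_zero, h0, zero_mul, mul_zero]
      · rw [h, ← hFP, hF]
    rw [Matrix.matrix_eq_sum_single X]
    simp only [Fin.sum_univ_two]
    exact hadd' _ _ (hadd' _ _ (hs _ _ _) (hs _ _ _)) (hadd' _ _ (hs _ _ _) (hs _ _ _))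

/-- GK-GENM: the local matrices generate. -/
theorem t_GENM : S_GENM := by
  intro r C _ D₀ D hD S h1 hadd hmul hS M
  have h0 : (0 : C → M2) ∈ S := by
    have h := hadd 1 h1 1 h1
    have e : (1 : C → M2) + 1 = 0 := by
      funext k
      exact CharTwo.add_self_eq_zero (1 : M2)
    rwa [e] at h
  have hA : ∀ k (X : M2), ∃ x ∈ S, x k = X := by
    intro k X
    exact Pool.Agent.N314.GK.gen (D k) (hD.ok k) {Y | ∃ x ∈ S, x k = Y} ⟨1, h1, rfl⟩
      (by
        rintro _ ⟨x, hx, rfl⟩ _ ⟨y, hy, rfl⟩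
        exact ⟨x + y, hadd x hx y hy, rfl⟩)
      (by
        rintro _ ⟨x, hx, rfl⟩ _ ⟨y, hy, rfl⟩
        exact ⟨x * y, hmul x hx y hy, rfl⟩) (fun π => ⟨_, hS π, rfl⟩) X
  have hB : ∀ k k', k ≠ k' → ∃ x ∈ S, x k = 1 ∧ x k' = 0 := by
    intro k k' hkk
    by_cases hN : ∃ x ∈ S, x k ≠ 0 ∧ x k' = 0
    · obtain ⟨x, hx, hxk, hxk'⟩ := hN
      refine one_of_ne (N := {X | ∃ x ∈ S, x k = X ∧ x k' = 0}) ?_ ?_ ⟨x, hx, rfl, hxk'⟩ hxk
      · rintro _ ⟨x, hx, rfl, h⟩ _ ⟨y, hy, rfl, h'⟩
        refine ⟨x + y, hadd x hx y hy, rfl, ?_⟩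
        rw [Pi.add_apply, h, h', add_zero]
      · rintro a b _ ⟨x, hx, rfl, h⟩
        obtain ⟨u, hu, rfl⟩ := hA k a
        obtain ⟨v, hv, rfl⟩ := hA k b
        refine ⟨u * x * v, hmul _ (hmul _ hu _ hx) _ hv, rfl, ?_⟩
        rw [Pi.mul_apply, Pi.mul_apply, h, mul_zero, zero_mul]
    · exfalso
      push Not at hN
      have huniq : ∀ x ∈ S, ∀ y ∈ S, x k' = y k' → x k = y k := by
        intro x hx y hy h
        by_contra hne
        refine hN (x + y) (hadd x hx y hy) ?_ ?_
        · intro h'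
          apply hne
          rw [Pi.add_apply] at h'
          exact CharTwo.add_eq_zero.1 h'
        · rw [Pi.add_apply, h]
          exact CharTwo.add_self_eq_zero _
      choose s hs hs' using hA k'
      obtain ⟨P, hP, hPX⟩ := inner (fun Y => s Y k) (huniq _ (hs _) _ h1 (hs' _))
        (fun x y => huniq _ (hs _) _ (hadd _ (hs x) _ (hs y)) (by
          rw [hs', Pi.add_apply, hs', hs']))
        (fun x y => huniq _ (hs _) _ (hmul _ (hs x) _ (hs y)) (by
          rw [hs', Pi.mul_apply, hs', hs']))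
      refine hD.nc k' k hkk.symm ⟨P, hP, fun π => ?_⟩
      have h2 : s (Mt (D k') π) k = Mt (D k) π := huniq _ (hs _) _ (hS π) (hs' _)
      rw [← h2]
      exact (hPX _).symm
  have he : ∀ k, ∀ T : Finset C, k ∉ T → ∃ x ∈ S, x k = 1 ∧ ∀ k' ∈ T, x k' = 0 := by
    intro k T
    induction T using Finset.induction_on with
    | empty => exact fun _ => ⟨1, h1, rfl, fun k' hk' => absurd hk' (notMem_empty _)⟩
    | insert a T ha ih =>
      intro hk
      obtain ⟨x, hx, hx1, hx2⟩ := ih fun h => hk (mem_insert_of_mem h)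
      obtain ⟨y, hy, hy1, hy2⟩ := hB k a (by rintro rfl; exact hk (mem_insert_self _ _))
      refine ⟨x * y, hmul x hx y hy, by rw [Pi.mul_apply, hx1, hy1, one_mul], ?_⟩
      intro k' hk'
      rw [Pi.mul_apply]
      rcases mem_insert.1 hk' with rfl | h
      · rw [hy2, mul_zero]
      · rw [hx2 _ h, zero_mul]
  have hsum : ∀ T : Finset C, (fun k => if k ∈ T then M k else 0) ∈ S := by
    intro T
    induction T using Finset.induction_on with
    | empty =>
      have e : (fun k => if k ∈ (∅ : Finset C) then M k else 0) = 0 := by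
        funext k
        exact if_neg (notMem_empty _)
      rw [e]
      exact h0
    | insert a T ha ih =>
      obtain ⟨x, hx, hx1, hx2⟩ := he a (univ.erase a) (notMem_erase _ _)
      obtain ⟨y, hy, hy1⟩ := hA a (M a)
      have e : (fun k => if k ∈ insert a T then M k else 0) =
          x * y + fun k => if k ∈ T then M k else 0 := by
        funext k
        rw [Pi.add_apply, Pi.mul_apply]
        by_cases hk : k = a
        · subst hk
          rw [if_pos (mem_insert_self _ _), if_neg ha, hx1, hy1, one_mul, add_zero]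
        · rw [hx2 k (mem_erase.2 ⟨hk, mem_univ _⟩), zero_mul, zero_add]
          by_cases hT : k ∈ T
          · rw [if_pos (mem_insert_of_mem hT), if_pos hT]
          · rw [if_neg hT, if_neg fun h => (mem_insert.1 h).elim hk hT]
      rw [e]
      exact hadd _ (hmul x hx y hy) _ ih
  have h := hsum univ
  have e : (fun k => if k ∈ (univ : Finset C) then M k else 0) = M := by
    funext k
    exact if_pos (mem_univ _)
  rwa [e] at h

end Pool.Agent.N42.GK.M
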